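import Pool.Agent.Helper38.DT.R2c
import Pool.Agent.Helper43.DT.R2b
import Pool.Agent.Helper24.DT.R1
import Pool.Agent.Helper22.DT.O1
import Pool.Agent.Helper81.DT.B0
import Pool.Agent.Helper66.DT.B3

/-!
# Part R2 of the swarm DT: independent sections vanishing at the generic point
-/

set_option autoImplicit false
set_option linter.unusedSectionVars false

open Polynomial Finset DirectSum

namespace Pool.Agent.Helper38.DT

open Pool.Agent.Helper766_CF Pool.Agent.Helper766_CG Pool.Agent.Helper766_CH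
open Pool.Agent.Helper58.CS Pool.Agent.Helper58.OP Pool.Agent.Helper58.SH Pool.Agent.Helper58.BG
open Pool.Agent.Helper58.LC Pool.Agent.Helper58.NS Pool.Agent.Helper17.DT

variable {R : Type} [CommRing R] [Algebra ℂ R] {𝒜 : ℕ → Submodule ℂ R} [GradedAlgebra 𝒜]
  {br : R →ₗ[ℂ] R →ₗ[ℂ] R} {k : Type} [Field k] [Algebra ℂ k]

/-- The list at the point `0`. -/
noncomputable def l0 (L : List (R × k[X])) : List (R × k) := L.map fun q => (q.1, q.2.coeff 0)

lemma hv_l0 (f : R →ₐ[ℂ] k[X]) (L : List (R × k[X])) (r : R) :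
    hv br ((ev0 k).comp f) (l0 L) r = (hv br f L r).coeff 0 := by
  induction L with
  | nil => simp [hv, l0]
  | cons q L ih =>
    have h : l0 (q :: L) = (q.1, q.2.coeff 0) :: l0 L := rfl
    rw [h]
    simp only [hv, List.map_cons, List.sum_cons] at ih ⊢
    have h1 : ((ev0 k).comp f) (br q.1 r) = (f (br q.1 r)).coeff 0 := ev0_apply _
    rw [ih, Polynomial.coeff_add, Polynomial.mul_coeff_zero, h1]

lemma om_l0 {V : R →ₗ[ℂ] k[X]} {δ : R →ₗ[ℂ] k} (h : ∀ r, δ r = (V r).coeff 0)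
    (L : List (R × k[X])) : om δ (l0 L) = (om V L).coeff 0 := by
  induction L with
  | nil => simp [om, l0]
  | cons q L ih =>
    have h1 : l0 (q :: L) = (q.1, q.2.coeff 0) :: l0 L := rfl
    rw [h1, om_cons, om_cons, ih, Polynomial.coeff_add, Polynomial.mul_coeff_zero, h]

lemma om_skew (P : IsPoisson br) {T : Type} [CommRing T] [Algebra ℂ T] (x : R →ₐ[ℂ] T)
    {V W : R →ₗ[ℂ] T} {L M : List (R × T)} (hV : ∀ r, V r = hv br x L r)
    (hW : ∀ r, W r = hv br x M r) : om V M = - om W L := by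
  have h := Pool.Agent.Helper22.DT.skew_pair (fun a b => x (br a b))
    (fun a b => by rw [P.skew a b, map_neg]) M L
  have h1 : om V M = (M.map fun q => q.2 * (L.map fun p => p.2 * x (br p.1 q.1)).sum).sum := by
    simp only [om, hV, hv]
  have h2 : om W L = (L.map fun q => q.2 * (M.map fun p => p.2 * x (br p.1 q.1)).sum).sum := by
    simp only [om, hW, hv]
  rw [h1, h2, h]

lemma om_comb {ι : Type} (s : Finset ι) (v : ι → k) (δ : ι → R →ₗ[ℂ] k) {V : R →ₗ[ℂ] k}
    (hV : ∀ r, V r = ∑ l ∈ s, v l * δ l r) (L : List (R × k)) :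
    om V L = ∑ l ∈ s, v l * om (δ l) L := by
  induction L with
  | nil => simp [om]
  | cons q L ih =>
    rw [om_cons, ih, hV, Finset.mul_sum, ← Finset.sum_add_distrib]
    refine Finset.sum_congr rfl fun l _ => ?_
    rw [om_cons]
    ring

/-- The Gram matrix at the generic point is invertible. -/
theorem det_ne_of_basis (C : Core 𝒜 br) {N : ℕ} {x : R →ₐ[ℂ] k} (hen : EN 𝒜 x)
    {δ : Fin N → R →ₗ[ℂ] k} (hδ1 : ∀ l, IsDer x (δ l))
    (hδ2 : ∀ c : Fin N → k, (∀ r, ∑ l, c l * δ l r = 0) → c = 0)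
    (hδ3 : ∀ δ' : R →ₗ[ℂ] k, IsDer x δ' → ∃ c : Fin N → k, ∀ r, δ' r = ∑ l, c l * δ l r)
    {L : Fin N → List (R × k)} (hL : ∀ l r, δ l r = hv br x (L l) r)
    {B : Matrix (Fin N) (Fin N) k} (hB : ∀ l m, B l m = om (δ l) (L m)) : B.det ≠ 0 := by
  classical
  intro h0
  obtain ⟨v, hv0, hvz⟩ := Matrix.exists_vecMul_eq_zero_iff.2 h0
  apply hv0
  apply hδ2
  -- the derivation
  set V : R →ₗ[ℂ] k := ∑ l, (LinearMap.mul' ℂ k).comp ((TensorProduct.mk ℂ k k (v l)).comp (δ l))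
    with hVdef
  have hV : ∀ r, V r = ∑ l, v l * δ l r := fun r => by
    simp [hVdef, LinearMap.sum_apply]
  have hVder : IsDer x V := ⟨fun a b => by
    rw [hV, hV, hV, Finset.mul_sum, Finset.mul_sum, ← Finset.sum_add_distrib]
    refine Finset.sum_congr rfl fun l _ => ?_
    rw [(hδ1 l).mul]
    ring⟩
  have hVL : ∀ m, om V (L m) = 0 := by
    intro m
    rw [om_comb Finset.univ v δ hV]
    have h1 := congrFun hvz m
    simp only [Matrix.vecMul, dotProduct, Pi.zero_apply] at h1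
    rw [← h1]
    exact Finset.sum_congr rfl fun l _ => by rw [hB]
  intro r
  rw [← hV]
  have hW : IsDer x (x.toLinearMap.comp (br r)) := ⟨fun a b => by
    simp only [LinearMap.comp_apply, AlgHom.toLinearMap_apply]
    rw [C.poisson.leibniz, map_add, map_mul, map_mul]⟩
  obtain ⟨a, ha⟩ := hδ3 _ hW
  obtain ⟨M, hM1, hM2⟩ := exists_comb (br := br) x Finset.univ a L
  have h1 : ∀ s, hv br x ((r, -1) :: M) s = 0 := by
    intro s
    have h2 : hv br x ((r, -1) :: M) s = -(x (br r s)) + hv br x M s := by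
      simp [hv]
    have h3 : x (br r s) = ∑ l, a l * δ l s := ha s
    rw [h2, hM1, h3, neg_add_eq_zero]
    exact Finset.sum_congr rfl fun l _ => by rw [hL]
  have h4 := Pool.Agent.Helper22.DT.om_zero C hen hVder h1
  rw [om_cons, hM2] at h4
  have h5 : ∑ i, a i * om V (L i) = 0 := Finset.sum_eq_zero fun i _ => by rw [hVL, mul_zero]
  rw [h5, add_zero] at h4
  simpa using h4

/-- R2, from BA (`hBA`) and O2 (`hO2`). -/
theorem exists_van_of (hBA : ∀ {k : Type} [Field k] [Algebra ℂ k] {n : ℕ},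
      ringKrullDim R = (2 * n : ℕ) → ∀ {x : R →ₐ[ℂ] k}, Function.Injective x →
      ∃ δ : Fin (2 * n) → R →ₗ[ℂ] k, (∀ l, IsDer x (δ l)) ∧
        (∀ c : Fin (2 * n) → k, (∀ r, ∑ l, c l * δ l r = 0) → c = 0) ∧
        ∀ δ' : R →ₗ[ℂ] k, IsDer x δ' → ∃ c : Fin (2 * n) → k, ∀ r, δ' r = ∑ l, c l * δ l r)
    (hO2 : ∀ {f g : R →ₐ[ℂ] k[X]}, Rev 𝒜 f g → IsCurve 𝒜 k 1 f → IsCurve 𝒜 k 1 g →
      EN 𝒜 f → EN 𝒜 g → ∀ {V V' W W' : R →ₗ[ℂ] k[X]}, Sec 𝒜 f V → Sec 𝒜 g V' → Sec 𝒜 f W →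
      Sec 𝒜 g W' → Rev 𝒜 V V' → Rev 𝒜 W W' → ∀ {L L' : List (R × k[X])},
      (∀ r, W r = hv br f L r) → (∀ r, W' r = hv br g L' r) → (om V' L').natDegree ≤ 1 ∧
        (om V' L').coeff 1 = (om V L).coeff 0 ∧ (om V' L').coeff 0 = (om V L).coeff 1)
    [IsAlgClosed k] [IsDomain R] (C : Core 𝒜 br) {n : ℕ}
    (hdim : ringKrullDim R = (2 * n : ℕ)) {f g : R →ₐ[ℂ] k[X]} (hfg : Rev 𝒜 f g)
    (hf : IsCurve 𝒜 k 1 f) (hg : IsCurve 𝒜 k 1 g)
    (hinj : Function.Injective fun r => (f r).coeff 0) :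
    ∃ w : Fin n → R →ₗ[ℂ] k[X], (∀ i, Sec 𝒜 f (w i)) ∧ (∀ i r, (w i r).coeff 0 = 0) ∧
      LinearIndependent k w := by
  classical
  have hgd : ∀ d, ∀ a ∈ 𝒜 d, (g a).natDegree ≤ d := fun d a ha => (hg.deg d a ha).trans (by omega)
  -- the generic point
  have hx0 : ∀ r, ((ev0 k).comp f) r = (f r).coeff 0 := fun r => ev0_apply _
  have hx0inj : Function.Injective ((ev0 k).comp f) := fun a b h => hinj (by
    change (f a).coeff 0 = (f b).coeff 0
    rw [← hx0, ← hx0, h])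
  have hen0 : EN 𝒜 ((ev0 k).comp f) := Pool.Agent.Helper66.LC.EN_comp hf.en (ev0 k)
  obtain ⟨δ, hδ1, hδ2, hδ3⟩ := hBA hdim hx0inj
  -- the sections
  have hgen := Pool.Agent.Helper81.DT.gen_generic hf hinj
  have hex : ∀ l, ∃ V, Sec 𝒜 f V ∧ ∀ r, δ l r = (V r).eval 0 := fun l =>
    hgen (δ l) fun a b => by
      have h := (hδ1 l).mul a b
      rw [hx0, hx0, Polynomial.coeff_zero_eq_eval_zero, Polynomial.coeff_zero_eq_eval_zero] at h
      exact h
  choose e he1 he2 using hex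
  have he3 : ∀ l r, δ l r = (e l r).coeff 0 := fun l r => by
    rw [he2, Polynomial.coeff_zero_eq_eval_zero]
  choose e' he1' hrev using fun l => Pool.Agent.Helper66.DT.rev_sec hfg hf hg (he1 l)
  choose L hL using fun l => Pool.Agent.Helper58.LC.Spec.exists_hv C hf.en (e l) (he1 l).der
  choose L' hL' using fun l => Pool.Agent.Helper58.LC.Spec.exists_hv C hg.en (e' l) (he1' l).der
  -- the Gram matrices
  let A : Matrix (Fin (2 * n)) (Fin (2 * n)) k := fun l m => (om (e l) (L m)).coeff 1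
  let B : Matrix (Fin (2 * n)) (Fin (2 * n)) k := fun l m => (om (e l) (L m)).coeff 0
  have hskew : ∀ l m, om (e l) (L m) = - om (e m) (L l) := fun l m =>
    om_skew C.poisson f (hL l) (hL m)
  have hA : A.transpose = -A := by
    ext l m
    change (om (e m) (L l)).coeff 1 = -(om (e l) (L m)).coeff 1
    rw [hskew m l, Polynomial.coeff_neg]
  have hB : B.transpose = -B := by
    ext l m
    change (om (e m) (L l)).coeff 0 = -(om (e l) (L m)).coeff 0
    rw [hskew m l, Polynomial.coeff_neg]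
  have hBdet : B.det ≠ 0 := det_ne_of_basis C hen0 hδ1 hδ2 hδ3 (L := fun l => l0 (L l))
    (fun l r => by rw [hv_l0, ← hL, he3]) fun l m => (om_l0 (he3 l) (L m)).symm
  have hG : ∀ l m, (A.map Polynomial.C + (X : k[X]) • B.map Polynomial.C) l m =
      om (e' l) (L' m) := by
    intro l m
    obtain ⟨h1, h2, h3⟩ := hO2 hfg hf hg hf.en hg.en (he1 l) (he1' l) (he1 m) (he1' m) (hrev l)
      (hrev m) (hL m) (hL' m)
    have h4 := Polynomial.eq_X_add_C_of_natDegree_le_one h1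
    rw [h4, h2, h3]
    simp only [Matrix.add_apply, Matrix.smul_apply, Matrix.map_apply, smul_eq_mul]
    change Polynomial.C (A l m) + X * Polynomial.C (B l m) = _
    rw [add_comm, mul_comm]
  have hGdet : (A.map Polynomial.C + (X : k[X]) • B.map Polynomial.C).det ≠ 0 :=
    Pool.Agent.Helper43.DT.det_pencil_ne A B hBdet
  -- the injectivity of the other chart
  have hginj := inj_rev hfg hgd hinj
  have hxginj : Function.Injective ((toF k).comp g) := fun a b h => hginj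
    (IsFractionRing.injective k[X] (FractionRing k[X]) h)
  have hE := hE_of_gram C (fun {T} _ _ {x} hx {V} hV {L} hL =>
    Pool.Agent.Helper22.DT.om_zero C hx hV hL) hg.en (hBA hdim hxginj) (fun l => (he1' l).der)
    hL' hG hGdet
  have hgram := Pool.Agent.Helper24.DT.gram A B hA hB hBdet R (fun r l => e' l r)
    fun r r' => ⟨g (br r r'), hE r r'⟩
  exact Pool.Agent.Helper43.DT.van_of_gram e' he1' A B hBdet
    (fun v hv => indep_of_gram hG hGdet v hv) hgram
    fun V hV => Pool.Agent.Helper66.DT.rev_sec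
      (fun d a ha i j hij => (hfg d a ha j i (by omega)).symm) hg hf hV

end Pool.Agent.Helper38.DT
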