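import Pool.Agent.Helper38.DT.R2
import Pool.Agent.Helper38.DT.O2
import Pool.Agent.Helper96.DT.BA

/-!
# Part R2 of the swarm DT without hypotheses
-/

set_option autoImplicit false
set_option linter.unusedSectionVars false

open Polynomial Finset DirectSum

namespace Pool.Agent.Helper38.DT

open Pool.Agent.Helper766_CF Pool.Agent.Helper766_CG Pool.Agent.Helper766_CH
open Pool.Agent.Helper58.CS Pool.Agent.Helper58.OP Pool.Agent.Helper58.SH Pool.Agent.Helper58.BG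
open Pool.Agent.Helper58.LC Pool.Agent.Helper58.NS Pool.Agent.Helper17.DT

variable {R : Type} [CommRing R] [Algebra ℂ R] {𝒜 : ℕ → Submodule ℂ R} [GradedAlgebra 𝒜]
  {br : R →ₗ[ℂ] R →ₗ[ℂ] R} {k : Type} [Field k] [Algebra ℂ k]

/-- R2. -/
theorem exists_van [IsAlgClosed k] [IsDomain R] (C : Core 𝒜 br) {n : ℕ}
    (hdim : ringKrullDim R = (2 * n : ℕ)) {f g : R →ₐ[ℂ] k[X]} (hfg : Rev 𝒜 f g)
    (hf : IsCurve 𝒜 k 1 f) (hg : IsCurve 𝒜 k 1 g)
    (hinj : Function.Injective fun r => (f r).coeff 0) :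
    ∃ w : Fin n → R →ₗ[ℂ] k[X], (∀ i, Sec 𝒜 f (w i)) ∧ (∀ i r, (w i r).coeff 0 = 0) ∧
      LinearIndependent k w :=
  exists_van_of (fun {_} _ _ {_} h {_} hx => Pool.Agent.Helper96.DT.exists_der_basis C.fg h hx)
    (fun {_ _} hfg hf hg hen hen' {_ _ _ _} hV hV' hW hW' h1 h2 {_ _} hL hL' =>
      om_rev C hfg hf hg hen hen' hV hV' hW hW' h1 h2 hL hL') C hdim hfg hf hg hinj

end Pool.Agent.Helper38.DT
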